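import Pool.Agent.H25.BCE.Stmts

/-!
# Barcode entropy: ENT
-/

set_option autoImplicit false

namespace Pool.Agent.H42.BCE

open Filter Topology
open Pool.Agent.H73 (mu0)

theorem ENT_thm : Pool.Agent.H25.BCE.ENTStmt := by
  intro b c hc hb
  have hμ : 0 < mu0 := Pool.Agent.H73.mu0_pos
  have h1 : Tendsto (fun m : ℕ => mu0 / 4 * (m : ℝ)) atTop atTop :=
    (tendsto_natCast_atTop_atTop (R := ℝ)).const_mul_atTop (by positivity)
  have h2 := (Real.tendsto_pow_mul_exp_neg_atTop_nhds_zero 1).comp h1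
  have h3 : ∀ᶠ m : ℕ in atTop, mu0 / 4 * (m : ℝ) * Real.exp (-(mu0 / 4 * (m : ℝ))) <
      mu0 / 4 * c := by
    have := h2.eventually_lt_const (show (0 : ℝ) < mu0 / 4 * c by positivity)
    filter_upwards [this] with m hm
    simpa using hm
  have key : ∀ᶠ m : ℕ in atTop, ((mu0 / 4 : ℝ) : EReal) ≤
      ENNReal.log (b m : ENNReal) / (m : EReal) := by
    filter_upwards [h3, eventually_ge_atTop 1] with m hm h1m
    have hmpos : (0 : ℝ) < m := by exact_mod_cast h1m
    have hreal : Real.exp (mu0 / 4 * m) ≤ c * Real.exp (mu0 * m / 2) / m := by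
      rw [le_div_iff₀ hmpos]
      have e1 : Real.exp (mu0 * m / 2) = Real.exp (mu0 / 4 * m) * Real.exp (mu0 / 4 * m) := by
        rw [← Real.exp_add]; congr 1; ring
      have e2 : (m : ℝ) * Real.exp (-(mu0 / 4 * (m : ℝ))) < c := by
        have h4 : 0 < mu0 / 4 := by positivity
        nlinarith [hm, h4]
      have e3 : (m : ℝ) < c * Real.exp (mu0 / 4 * m) := by
        have := mul_lt_mul_of_pos_right e2 (Real.exp_pos (mu0 / 4 * m))
        rw [mul_assoc, ← Real.exp_add] at this
        simpa using this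
      rw [e1]
      nlinarith [Real.exp_pos (mu0 / 4 * m)]
    have hle : ENNReal.ofReal (Real.exp (mu0 / 4 * m)) ≤ (b m : ENNReal) :=
      (ENNReal.ofReal_le_ofReal hreal).trans (hb m h1m)
    have hlog : ((mu0 / 4 * m : ℝ) : EReal) ≤ ENNReal.log (b m : ENNReal) := by
      have := ENNReal.log_monotone hle
      rw [ENNReal.log_ofReal_of_pos (Real.exp_pos _), Real.log_exp] at this
      exact this
    rw [EReal.le_div_iff_mul_le (by exact_mod_cast h1m) (by exact EReal.natCast_ne_top m)]
    refine le_trans (le_of_eq ?_) hlog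
    push_cast
    rfl
  refine lt_of_lt_of_le ?_ (le_limsup_of_frequently_le' key.frequently)
  exact_mod_cast (show (0 : ℝ) < mu0 / 4 by positivity)

end Pool.Agent.H42.BCE
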